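import Pool.Agent.W317.CT.Stm

set_option autoImplicit false

namespace Pool.Agent.W646.CT

open Pool.Agent.W317.CT Filter Topology

/-! ### bounded functions -/

section bdd

variable {f g : E × W → ℝ}

theorem bdd_const (c : ℝ) : Bdd (fun _ => c) := ⟨|c|, fun _ => le_rfl⟩

theorem bdd_add (hf : Bdd f) (hg : Bdd g) : Bdd (fun x => f x + g x) := by
  obtain ⟨A, hA⟩ := hf
  obtain ⟨C, hC⟩ := hg
  exact ⟨A + C, fun x => (abs_add_le _ _).trans (add_le_add (hA x) (hC x))⟩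

theorem bdd_mul (hf : Bdd f) (hg : Bdd g) : Bdd (fun x => f x * g x) := by
  obtain ⟨A, hA⟩ := hf
  obtain ⟨C, hC⟩ := hg
  refine ⟨A * C, fun x => ?_⟩
  rw [abs_mul]
  exact mul_le_mul (hA x) (hC x) (abs_nonneg _) ((abs_nonneg _).trans (hA x))

theorem bdd_cmul (c : ℝ) (hf : Bdd f) : Bdd (fun x => c * f x) := bdd_mul (bdd_const c) hf

theorem bdd_sub (hf : Bdd f) (hg : Bdd g) : Bdd (fun x => f x - g x) := by
  obtain ⟨A, hA⟩ := hf
  obtain ⟨C, hC⟩ := hg
  exact ⟨A + C, fun x => (abs_sub _ _).trans (add_le_add (hA x) (hC x))⟩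

theorem bdd_sq (hf : Bdd f) : Bdd (fun x => f x ^ 2) := by
  have h := bdd_mul hf hf
  refine (show (fun x => f x ^ 2) = fun x => f x * f x from ?_) ▸ h
  funext x
  rw [sq]

theorem bdd_sum {κ : Type} (s : Finset κ) {F : κ → E × W → ℝ} (hF : ∀ k, Bdd (F k)) :
    Bdd (fun x => ∑ k ∈ s, F k x) := by
  choose A hA using hF
  exact ⟨∑ k ∈ s, A k, fun x => (Finset.abs_sum_le_sum_abs _ _).trans
    (Finset.sum_le_sum fun k _ => hA k x)⟩

theorem bdd_tr (b : Form) (hf : Bdd f) (h : E × W) : Bdd (fun x => f (mul b x h)) := by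
  obtain ⟨A, hA⟩ := hf
  exact ⟨A, fun x => hA _⟩

end bdd

/-! ### means -/

section mean

variable {b : Form} {m : (E × W → ℝ) → ℝ} (hm : IsMean b m) {f g : E × W → ℝ}

include hm

theorem m_const (c : ℝ) : m (fun _ => c) = c := by
  have h := hm.smul c (fun _ => 1) (bdd_const 1)
  rw [hm.one, mul_one] at h
  simpa using h

theorem m_mono (hf : Bdd f) (hg : Bdd g) (h : ∀ x, f x ≤ g x) : m f ≤ m g := by
  have h1 := hm.add f (fun x => g x - f x) hf (bdd_sub hg hf)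
  have h2 := hm.nonneg (fun x => g x - f x) (bdd_sub hg hf) (fun x => by
    have := h x
    linarith)
  have h3 : (fun x => f x + (g x - f x)) = g := by
    funext x
    ring
  rw [h3] at h1
  linarith

theorem m_sum {κ : Type} (s : Finset κ) {F : κ → E × W → ℝ} (hF : ∀ k, Bdd (F k)) :
    m (fun x => ∑ k ∈ s, F k x) = ∑ k ∈ s, m (F k) := by
  classical
  induction s using Finset.induction_on with
  | empty =>
    simp only [Finset.sum_empty]
    exact m_const hm 0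
  | insert a s ha ih =>
    simp only [Finset.sum_insert ha]
    rw [hm.add (F a) (fun x => ∑ k ∈ s, F k x) (hF a) (bdd_sum s hF), ih]

end mean

/-! ### slopes -/

/-- the slope -/
noncomputable def qq (b : Form) (φ : E × W → E) (i j : Fin 8) (s : ℝ) (x : E × W) : ℝ :=
  (φ (mul b x (st i s)) j - φ x j) / s

section slope

variable {b : Form} {m : (E × W → ℝ) → ℝ} {φ : E × W → E} {K : ℝ}

theorem coord_le (hφ : ∀ g h, ‖φ g - φ h‖ ≤ K * d b g h) (g h : E × W) (j : Fin 8) :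
    |φ g j - φ h j| ≤ K * d b g h := by
  have h1 := norm_le_pi_norm (φ g - φ h) j
  rw [Pi.sub_apply, Real.norm_eq_abs] at h1
  exact h1.trans (hφ g h)

theorem K_nonneg (hφ : ∀ g h, ‖φ g - φ h‖ ≤ K * d b g h) : 0 ≤ K := by
  have h1 := (norm_nonneg _).trans (hφ 0 (st 0 1))
  rw [d_zero_left, N_st, abs_one, mul_one] at h1
  exact h1

theorem qq_le (hφ : ∀ g h, ‖φ g - φ h‖ ≤ K * d b g h) (i j : Fin 8) {s : ℝ} (hs : 0 < s)
    (x : E × W) : |qq b φ i j s x| ≤ K := by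
  unfold qq
  rw [abs_div, abs_of_pos hs, div_le_iff₀ hs]
  have h1 := coord_le hφ (mul b x (st i s)) x j
  rw [d_comm, d_mul_right_self, N_st, abs_of_pos hs] at h1
  exact h1

theorem qq_bdd (hφ : ∀ g h, ‖φ g - φ h‖ ≤ K * d b g h) (i j : Fin 8) {s : ℝ} (hs : 0 < s) :
    Bdd (qq b φ i j s) := ⟨K, qq_le hφ i j hs⟩

theorem qq_two (i j : Fin 8) {s : ℝ} (hs : 0 < s) (x : E × W) :
    qq b φ i j (2 * s) x = (qq b φ i j s x + qq b φ i j s (mul b x (st i s))) / 2 := by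
  unfold qq
  rw [mul_assoc', st_mul, two_mul]
  field_simp
  ring

theorem en_step (hm : IsMean b m) (hφ : ∀ g h, ‖φ g - φ h‖ ≤ K * d b g h) (i j : Fin 8) {s : ℝ}
    (hs : 0 < s) :
    m (fun x => (qq b φ i j (2 * s) x - qq b φ i j s x) ^ 2) +
      m (fun x => qq b φ i j (2 * s) x ^ 2) = m (fun x => qq b φ i j s x ^ 2) := by
  have hs2 : 0 < 2 * s := by linarith
  have b1 := qq_bdd hφ i j hs
  have b2 := qq_bdd hφ i j hs2
  have b3 := bdd_tr b b1 (st i s)
  rw [← hm.add _ _ (bdd_sq (bdd_sub b2 b1)) (bdd_sq b2)]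
  have h1 : (fun x => (qq b φ i j (2 * s) x - qq b φ i j s x) ^ 2 + qq b φ i j (2 * s) x ^ 2) =
      fun x => (1 / 2) * (qq b φ i j s (mul b x (st i s)) ^ 2 + qq b φ i j s x ^ 2) := by
    funext x
    rw [qq_two i j hs]
    ring
  rw [h1, hm.smul (1 / 2) (fun x => qq b φ i j s (mul b x (st i s)) ^ 2 + qq b φ i j s x ^ 2)
    (bdd_add (bdd_sq b3) (bdd_sq b1)),
    hm.add (fun x => qq b φ i j s (mul b x (st i s)) ^ 2) (fun x => qq b φ i j s x ^ 2)
    (bdd_sq b3) (bdd_sq b1),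
    hm.inv (fun x => qq b φ i j s x ^ 2) (bdd_sq b1) (st i s)]
  ring

/-- scales -/
noncomputable def sc (k : ℕ) : ℝ := (2 ^ k)⁻¹

theorem sc_pos (k : ℕ) : 0 < sc k := by unfold sc; positivity

theorem sc_succ (k : ℕ) : sc k = 2 * sc (k + 1) := by
  unfold sc
  rw [pow_succ]
  field_simp

/-- the total energy at scale `k` -/
noncomputable def Rk (b : Form) (m : (E × W → ℝ) → ℝ) (φ : E × W → E) (k : ℕ) : ℝ :=
  ∑ i : Fin 8, ∑ j : Fin 8, m (fun x => qq b φ i j (sc k) x ^ 2)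

theorem inc_nonneg (hm : IsMean b m) (hφ : ∀ g h, ‖φ g - φ h‖ ≤ K * d b g h) (i j : Fin 8)
    (k : ℕ) : 0 ≤ m (fun x => (qq b φ i j (sc k) x - qq b φ i j (sc (k + 1)) x) ^ 2) :=
  hm.nonneg _ (bdd_sq (bdd_sub (qq_bdd hφ i j (sc_pos k)) (qq_bdd hφ i j (sc_pos (k + 1)))))
    (fun x => sq_nonneg _)

theorem inc_eq (hm : IsMean b m) (hφ : ∀ g h, ‖φ g - φ h‖ ≤ K * d b g h) (i j : Fin 8)
    (k : ℕ) : m (fun x => (qq b φ i j (sc k) x - qq b φ i j (sc (k + 1)) x) ^ 2) =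
      m (fun x => qq b φ i j (sc (k + 1)) x ^ 2) - m (fun x => qq b φ i j (sc k) x ^ 2) := by
  have h := en_step hm hφ i j (sc_pos (k + 1))
  rw [← sc_succ] at h
  linarith

theorem Rk_mono (hm : IsMean b m) (hφ : ∀ g h, ‖φ g - φ h‖ ≤ K * d b g h) :
    Monotone (Rk b m φ) := by
  refine monotone_nat_of_le_succ fun k => ?_
  unfold Rk
  refine Finset.sum_le_sum fun i _ => Finset.sum_le_sum fun j _ => ?_
  have h1 := inc_nonneg hm hφ i j k
  rw [inc_eq hm hφ] at h1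
  linarith

theorem Rk_le (hm : IsMean b m) (hφ : ∀ g h, ‖φ g - φ h‖ ≤ K * d b g h) (k : ℕ) :
    Rk b m φ k ≤ 64 * K ^ 2 := by
  unfold Rk
  have h1 : ∀ i j : Fin 8, m (fun x => qq b φ i j (sc k) x ^ 2) ≤ K ^ 2 := by
    intro i j
    have h2 := m_mono hm (bdd_sq (qq_bdd hφ i j (sc_pos k))) (bdd_const (K ^ 2)) (fun x => by
      have h3 := qq_le hφ i j (sc_pos k) x
      rw [← sq_abs]
      exact pow_le_pow_left₀ (abs_nonneg _) h3 2)
    rwa [m_const hm] at h2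
  calc ∑ i : Fin 8, ∑ j : Fin 8, m (fun x => qq b φ i j (sc k) x ^ 2)
      ≤ ∑ i : Fin 8, ∑ j : Fin 8, K ^ 2 :=
        Finset.sum_le_sum fun i _ => Finset.sum_le_sum fun j _ => h1 i j
    _ = 64 * K ^ 2 := by
      simp only [Finset.sum_const, Finset.card_univ, Fintype.card_fin, nsmul_eq_mul]
      ring

/-- a good block of scales -/
theorem good_block (hm : IsMean b m) (hφ : ∀ g h, ‖φ g - φ h‖ ≤ K * d b g h) (M : ℕ) {η : ℝ}
    (hη : 0 < η) : ∃ k, Rk b m φ (k + M) - Rk b m φ k ≤ η := by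
  have hbdd : BddAbove (Set.range (Rk b m φ)) :=
    ⟨64 * K ^ 2, by rintro _ ⟨k, rfl⟩; exact Rk_le hm hφ k⟩
  have h1 := tendsto_atTop_ciSup (Rk_mono hm hφ) hbdd
  have h2 := (h1.comp (tendsto_add_atTop_nat M)).sub h1
  rw [sub_self] at h2
  obtain ⟨k, hk⟩ := (h2.eventually (gt_mem_nhds hη)).exists
  exact ⟨k, le_of_lt hk⟩

/-- comparison of the slopes at the ends of a block -/
theorem block_le (hm : IsMean b m) (hφ : ∀ g h, ‖φ g - φ h‖ ≤ K * d b g h) (i j : Fin 8)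
    (k M : ℕ) : m (fun x => (qq b φ i j (sc k) x - qq b φ i j (sc (k + M)) x) ^ 2) ≤
      M * (Rk b m φ (k + M) - Rk b m φ k) := by
  have hb : ∀ l, Bdd (fun x => (qq b φ i j (sc (k + l)) x - qq b φ i j (sc (k + l + 1)) x) ^ 2) :=
    fun l => bdd_sq (bdd_sub (qq_bdd hφ i j (sc_pos _)) (qq_bdd hφ i j (sc_pos _)))
  have h1 : ∀ x, (qq b φ i j (sc k) x - qq b φ i j (sc (k + M)) x) ^ 2 ≤
      M * ∑ l ∈ Finset.range M,
        (qq b φ i j (sc (k + l)) x - qq b φ i j (sc (k + l + 1)) x) ^ 2 := by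
    intro x
    have h2 : qq b φ i j (sc k) x - qq b φ i j (sc (k + M)) x = ∑ l ∈ Finset.range M,
        (qq b φ i j (sc (k + l)) x - qq b φ i j (sc (k + l + 1)) x) := by
      have := Finset.sum_range_sub' (fun l => qq b φ i j (sc (k + l)) x) M
      simp only [add_zero] at this
      rw [← this]
      rfl
    rw [h2]
    have h3 := sq_sum_le_card_mul_sum_sq (s := Finset.range M)
      (f := fun l => qq b φ i j (sc (k + l)) x - qq b φ i j (sc (k + l + 1)) x)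
    rwa [Finset.card_range] at h3
  have h2 := m_mono hm (bdd_sq (bdd_sub (qq_bdd hφ i j (sc_pos k)) (qq_bdd hφ i j (sc_pos (k + M)))))
    (bdd_cmul (M : ℝ) (bdd_sum (Finset.range M) hb)) h1
  refine h2.trans ?_
  rw [hm.smul (M : ℝ) _ (bdd_sum (Finset.range M) hb), m_sum hm (Finset.range M) hb]
  refine mul_le_mul_of_nonneg_left ?_ (Nat.cast_nonneg M)
  have h3 : ∀ l, m (fun x => (qq b φ i j (sc (k + l)) x - qq b φ i j (sc (k + l + 1)) x) ^ 2) ≤
      Rk b m φ (k + l + 1) - Rk b m φ (k + l) := by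
    intro l
    have h4 : Rk b m φ (k + l + 1) - Rk b m φ (k + l) = ∑ i : Fin 8, ∑ j : Fin 8,
        m (fun x => (qq b φ i j (sc (k + l)) x - qq b φ i j (sc (k + l + 1)) x) ^ 2) := by
      unfold Rk
      rw [← Finset.sum_sub_distrib]
      refine Finset.sum_congr rfl fun i _ => ?_
      rw [← Finset.sum_sub_distrib]
      refine Finset.sum_congr rfl fun j _ => ?_
      rw [inc_eq hm hφ]
    rw [h4]
    have h5 := Finset.single_le_sum (f := fun j => m (fun x => (qq b φ i j (sc (k + l)) x -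
      qq b φ i j (sc (k + l + 1)) x) ^ 2)) (fun j _ => inc_nonneg hm hφ i j (k + l))
      (Finset.mem_univ j)
    refine h5.trans ?_
    exact Finset.single_le_sum (f := fun i => ∑ j : Fin 8, m (fun x => (qq b φ i j (sc (k + l)) x -
      qq b φ i j (sc (k + l + 1)) x) ^ 2)) (fun i _ => Finset.sum_nonneg fun j _ =>
      inc_nonneg hm hφ i j (k + l)) (Finset.mem_univ i)
  refine (Finset.sum_le_sum fun l _ => h3 l).trans (le_of_eq ?_)
  have h4 := Finset.sum_range_sub (fun l => Rk b m φ (k + l)) M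
  simp only [add_zero] at h4
  exact h4

/-- the slopes at a large scale change little under small translations -/
theorem qq_near (hφ : ∀ g h, ‖φ g - φ h‖ ≤ K * d b g h) (i j : Fin 8) {t δ R : ℝ} (ht : 0 < t)
    (hδ : 0 < δ) (hδ1 : δ ≤ 1) (hR : 1 ≤ R) (y : E × W) (hy : N y ≤ R) (x : E × W) :
    |qq b φ i j t (mul b x (dil (t * δ ^ 2) y)) - qq b φ i j t x| ≤ 4 * K * R * δ := by
  have hK := K_nonneg hφ
  have hs : 0 < t * δ ^ 2 := by positivity
  set g := dil (t * δ ^ 2) y with hg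
  have hg1 : ‖g.1‖ ≤ t * δ ^ 2 * R := by
    rw [hg]
    simp only [dil]
    rw [norm_smul, Real.norm_eq_abs, abs_of_pos hs]
    exact mul_le_mul_of_nonneg_left ((norm_fst_le_N y).trans hy) hs.le
  have hg2 : ‖g.2‖ ≤ (t * δ ^ 2) ^ 2 * R ^ 2 := by
    rw [hg]
    simp only [dil]
    rw [norm_smul, Real.norm_eq_abs, abs_of_nonneg (sq_nonneg _)]
    refine mul_le_mul_of_nonneg_left ((norm_snd_le_N y).trans ?_) (sq_nonneg _)
    exact pow_le_pow_left₀ (N_nonneg y) hy 2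
  have hδ2 : δ ^ 2 ≤ δ := by nlinarith
  have hd1 : d b (mul b (mul b x g) (st i t)) (mul b x (st i t)) ≤ 3 * R * t * δ := by
    rw [mul_assoc', d_mul_left, d_comm, d_def, conj_eq]
    refine N_le (by positivity) ?_ ?_
    · show ‖g.1‖ ≤ _
      refine hg1.trans ?_
      have : t * δ ^ 2 * R ≤ t * δ * R := by
        have h1 : t * δ ^ 2 ≤ t * δ := mul_le_mul_of_nonneg_left hδ2 ht.le
        exact mul_le_mul_of_nonneg_right h1 (by linarith)
      have h2 : 0 ≤ t * δ * R := by positivity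
      nlinarith
    · show ‖g.2 + (2 : ℝ) • b.B g.1 (st i t).1‖ ≤ _
      have h1 : ‖(st i t).1‖ = t := by
        simp only [st]
        rw [norm_smul, norm_e, mul_one, Real.norm_eq_abs, abs_of_pos ht]
      have h2 := b.bd g.1 (st i t).1
      rw [h1] at h2
      have h3 : ‖(2 : ℝ) • b.B g.1 (st i t).1‖ ≤ 2 * (2 * (t * δ ^ 2 * R) * t) := by
        rw [norm_smul, Real.norm_eq_abs, abs_two]
        refine mul_le_mul_of_nonneg_left (h2.trans ?_) (by norm_num)
        exact mul_le_mul_of_nonneg_right (mul_le_mul_of_nonneg_left hg1 (by norm_num)) ht.le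
      refine (norm_add_le _ _).trans ((add_le_add hg2 h3).trans ?_)
      have h4 : (t * δ ^ 2) ^ 2 * R ^ 2 ≤ t ^ 2 * δ ^ 2 * R ^ 2 := by
        have : (t * δ ^ 2) ^ 2 ≤ t ^ 2 * δ ^ 2 := by
          have h5 : δ ^ 4 ≤ δ ^ 2 := by nlinarith [sq_nonneg δ]
          calc (t * δ ^ 2) ^ 2 = t ^ 2 * δ ^ 4 := by ring
            _ ≤ t ^ 2 * δ ^ 2 := mul_le_mul_of_nonneg_left h5 (sq_nonneg t)
        exact mul_le_mul_of_nonneg_right this (sq_nonneg R)
      have h5 : 2 * (2 * (t * δ ^ 2 * R) * t) ≤ 4 * (t ^ 2 * δ ^ 2 * R ^ 2) := by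
        have h6 : R ≤ R ^ 2 := by nlinarith
        have h7 : t ^ 2 * δ ^ 2 * R ≤ t ^ 2 * δ ^ 2 * R ^ 2 :=
          mul_le_mul_of_nonneg_left h6 (by positivity)
        nlinarith
      have h6 : 0 ≤ t ^ 2 * δ ^ 2 * R ^ 2 := by positivity
      nlinarith
  have hd2 : d b (mul b x g) x ≤ R * t * δ := by
    rw [d_comm, d_mul_right_self, hg, N_dil, abs_of_pos hs]
    calc t * δ ^ 2 * N y ≤ t * δ ^ 2 * R := mul_le_mul_of_nonneg_left hy hs.le
      _ ≤ t * δ * R := by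
        have h1 : t * δ ^ 2 ≤ t * δ := mul_le_mul_of_nonneg_left hδ2 ht.le
        exact mul_le_mul_of_nonneg_right h1 (by linarith)
      _ = R * t * δ := by ring
  have h1 := coord_le hφ (mul b (mul b x g) (st i t)) (mul b x (st i t)) j
  have h2 := coord_le hφ (mul b x g) x j
  have h3 : qq b φ i j t (mul b x g) - qq b φ i j t x =
      ((φ (mul b (mul b x g) (st i t)) j - φ (mul b x (st i t)) j) - (φ (mul b x g) j - φ x j)) / t := by
    unfold qq
    ring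
  rw [h3, abs_div, abs_of_pos ht, div_le_iff₀ ht]
  refine (abs_sub _ _).trans ((add_le_add h1 h2).trans ?_)
  have h4 := mul_le_mul_of_nonneg_left hd1 hK
  have h5 := mul_le_mul_of_nonneg_left hd2 hK
  nlinarith

end slope

set_option maxHeartbeats 1600000 in
theorem ener : S_ENER := by
  intro b m hm φ K hφ ε hε Y
  have hK := K_nonneg hφ
  obtain ⟨R, hR1, hR⟩ : ∃ R : ℝ, 1 ≤ R ∧ ∀ y ∈ Y, N y ≤ R := by
    refine ⟨1 + ∑ y ∈ Y, N y, ?_, fun y hy => ?_⟩
    · have : 0 ≤ ∑ y ∈ Y, N y := Finset.sum_nonneg fun y _ => N_nonneg y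
      linarith
    · have h1 : N y ≤ ∑ y ∈ Y, N y :=
        Finset.single_le_sum (f := fun y => N y) (fun y _ => N_nonneg y) hy
      linarith
  -- the choice of `L`
  set A : ℝ := (Y.card : ℝ) * 64 * 3 with hA
  have hA0 : 0 ≤ A := by positivity
  obtain ⟨L, hL⟩ : ∃ L : ℕ, A * (4 * K * R * sc L) ^ 2 < ε ^ 2 / 2 := by
    have h1 : Tendsto (fun L => A * (4 * K * R * sc L) ^ 2) atTop (𝓝 (A * (4 * K * R * 0) ^ 2)) := by
      refine Tendsto.const_mul _ (Tendsto.pow (Tendsto.const_mul _ ?_) 2)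
      have h2 : Tendsto (fun L : ℕ => ((2 : ℝ) ^ L)) atTop atTop :=
        tendsto_pow_atTop_atTop_of_one_lt one_lt_two
      exact h2.inv_tendsto_atTop
    have h2 : A * (4 * K * R * 0) ^ 2 < ε ^ 2 / 2 := by
      have : 0 < ε ^ 2 := by positivity
      simp
      linarith
    exact (h1.eventually (gt_mem_nhds h2)).exists
  obtain ⟨η, hη, hηA⟩ : ∃ η : ℝ, 0 < η ∧ A * (2 * ((2 * L : ℕ) : ℝ) * η) < ε ^ 2 / 2 := by
    refine ⟨ε ^ 2 / (4 * (A * (2 * ((2 * L : ℕ) : ℝ)) + 1)), by positivity, ?_⟩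
    have h1 : 0 ≤ A * (2 * ((2 * L : ℕ) : ℝ)) := by positivity
    have h2 : A * (2 * ((2 * L : ℕ) : ℝ) * (ε ^ 2 / (4 * (A * (2 * ((2 * L : ℕ) : ℝ)) + 1)))) =
        (A * (2 * ((2 * L : ℕ) : ℝ))) * ε ^ 2 / (4 * (A * (2 * ((2 * L : ℕ) : ℝ)) + 1)) := by
      ring
    rw [h2, div_lt_iff₀ (by positivity)]
    have h3 : 0 < ε ^ 2 := by positivity
    nlinarith
  obtain ⟨k, hk⟩ := good_block hm hφ (2 * L) hη
  set t : ℝ := sc k with ht
  set δ : ℝ := sc L with hδ
  set s : ℝ := sc (k + 2 * L) with hs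
  have ht0 : 0 < t := sc_pos k
  have hδ0 : 0 < δ := sc_pos L
  have hs0 : 0 < s := sc_pos _
  have hδ1 : δ ≤ 1 := by
    rw [hδ]
    unfold sc
    exact inv_le_one_of_one_le₀ (one_le_pow₀ one_le_two)
  have hst : s = t * δ ^ 2 := by
    rw [hs, ht, hδ]
    unfold sc
    rw [pow_add, pow_mul', mul_inv, inv_pow]
  have hbl : ∀ i j, m (fun x => (qq b φ i j t x - qq b φ i j s x) ^ 2) ≤ ((2 * L : ℕ) : ℝ) * η := by
    intro i j
    exact (block_le hm hφ i j k (2 * L)).trans (mul_le_mul_of_nonneg_left hk (Nat.cast_nonneg _))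
  -- the mean of one term
  have hbq : ∀ i j, Bdd (qq b φ i j s) := fun i j => qq_bdd hφ i j hs0
  have hbt : ∀ i j, Bdd (qq b φ i j t) := fun i j => qq_bdd hφ i j ht0
  have hterm : ∀ y ∈ Y, ∀ i j, m (fun x => (qq b φ i j s (mul b x (dil s y)) -
      qq b φ i j s x) ^ 2) ≤ 3 * (2 * ((2 * L : ℕ) : ℝ) * η + (4 * K * R * δ) ^ 2) := by
    intro y hy i j
    have hbd : Bdd (fun x => (qq b φ i j t x - qq b φ i j s x) ^ 2) :=
      bdd_sq (bdd_sub (hbt i j) (hbq i j))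
    have hbd' := bdd_tr b hbd (dil s y)
    have h1 : ∀ x, (qq b φ i j s (mul b x (dil s y)) - qq b φ i j s x) ^ 2 ≤
        3 * (((qq b φ i j t (mul b x (dil s y)) - qq b φ i j s (mul b x (dil s y))) ^ 2 +
          (qq b φ i j t x - qq b φ i j s x) ^ 2) + (4 * K * R * δ) ^ 2) := by
      intro x
      have h2 := qq_near hφ i j ht0 hδ0 hδ1 hR1 y (hR y hy) x
      rw [← hst] at h2
      have h3 : (qq b φ i j t (mul b x (dil s y)) - qq b φ i j t x) ^ 2 ≤ (4 * K * R * δ) ^ 2 := by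
        rw [← sq_abs]
        exact pow_le_pow_left₀ (abs_nonneg _) h2 2
      set a1 := qq b φ i j t (mul b x (dil s y)) - qq b φ i j s (mul b x (dil s y))
      set a2 := qq b φ i j t (mul b x (dil s y)) - qq b φ i j t x
      set a3 := qq b φ i j t x - qq b φ i j s x
      have h4 : qq b φ i j s (mul b x (dil s y)) - qq b φ i j s x = -a1 + a2 + a3 := by
        simp only [a1, a2, a3]
        ring
      rw [h4]
      nlinarith [sq_nonneg (a1 + a2), sq_nonneg (a2 - a3), sq_nonneg (a1 + a3)]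
    have h2 := m_mono hm (bdd_sq (bdd_sub (bdd_tr b (hbq i j) (dil s y)) (hbq i j)))
      (bdd_cmul 3 (bdd_add (bdd_add hbd' hbd) (bdd_const ((4 * K * R * δ) ^ 2)))) h1
    refine h2.trans ?_
    rw [hm.smul 3 _ (bdd_add (bdd_add hbd' hbd) (bdd_const ((4 * K * R * δ) ^ 2))),
      hm.add _ _ (bdd_add hbd' hbd) (bdd_const ((4 * K * R * δ) ^ 2)), hm.add _ _ hbd' hbd,
      m_const hm, hm.inv _ hbd (dil s y)]
    have h3 := hbl i j
    linarith
  -- the sum
  set F : E × W → ℝ := fun x => ∑ y ∈ Y, ∑ i : Fin 8, ∑ j : Fin 8,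
    (qq b φ i j s (mul b x (dil s y)) - qq b φ i j s x) ^ 2 with hF
  have hb0 : ∀ y i j, Bdd (fun x => (qq b φ i j s (mul b x (dil s y)) - qq b φ i j s x) ^ 2) :=
    fun y i j => bdd_sq (bdd_sub (bdd_tr b (hbq i j) (dil s y)) (hbq i j))
  have hb1 : ∀ y i, Bdd (fun x => ∑ j : Fin 8,
      (qq b φ i j s (mul b x (dil s y)) - qq b φ i j s x) ^ 2) :=
    fun y i => bdd_sum _ (hb0 y i)
  have hb2 : ∀ y, Bdd (fun x => ∑ i : Fin 8, ∑ j : Fin 8,
      (qq b φ i j s (mul b x (dil s y)) - qq b φ i j s x) ^ 2) :=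
    fun y => bdd_sum _ (hb1 y)
  have hbF : Bdd F := bdd_sum _ hb2
  have hmF : m F < ε ^ 2 := by
    have h1 : m F = ∑ y ∈ Y, ∑ i : Fin 8, ∑ j : Fin 8,
        m (fun x => (qq b φ i j s (mul b x (dil s y)) - qq b φ i j s x) ^ 2) := by
      rw [hF, m_sum hm Y hb2]
      refine Finset.sum_congr rfl fun y _ => ?_
      rw [m_sum hm _ (hb1 y)]
      refine Finset.sum_congr rfl fun i _ => ?_
      rw [m_sum hm _ (hb0 y i)]
    have h2 : m F ≤ ∑ y ∈ Y, ∑ i : Fin 8, ∑ j : Fin 8,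
        3 * (2 * ((2 * L : ℕ) : ℝ) * η + (4 * K * R * δ) ^ 2) := by
      rw [h1]
      exact Finset.sum_le_sum fun y hy => Finset.sum_le_sum fun i _ =>
        Finset.sum_le_sum fun j _ => hterm y hy i j
    have h3 : ∑ y ∈ Y, ∑ i : Fin 8, ∑ j : Fin 8,
        3 * (2 * ((2 * L : ℕ) : ℝ) * η + (4 * K * R * δ) ^ 2) =
        A * (2 * ((2 * L : ℕ) : ℝ) * η) + A * (4 * K * R * δ) ^ 2 := by
      simp only [Finset.sum_const, Finset.card_univ, Fintype.card_fin, nsmul_eq_mul]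
      rw [hA]
      push_cast
      ring
    rw [h3] at h2
    linarith
  obtain ⟨x, hx⟩ : ∃ x, F x < ε ^ 2 := by
    by_contra hcon
    push Not at hcon
    have h1 := m_mono hm (bdd_const (ε ^ 2)) hbF hcon
    rw [m_const hm] at h1
    linarith
  refine ⟨s, x, hs0, fun y hy i => ?_⟩
  rw [dil_mul, dil_st, mul_one, ← mul_assoc', pi_norm_le_iff_of_nonneg (by positivity)]
  intro j
  have h1 : (qq b φ i j s (mul b x (dil s y)) - qq b φ i j s x) ^ 2 ≤ F x := by
    have e1 := Finset.single_le_sum (f := fun j => (qq b φ i j s (mul b x (dil s y)) -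
      qq b φ i j s x) ^ 2) (fun j _ => sq_nonneg _) (Finset.mem_univ j)
    have e2 := Finset.single_le_sum (f := fun i => ∑ j : Fin 8,
      (qq b φ i j s (mul b x (dil s y)) - qq b φ i j s x) ^ 2)
      (fun i _ => Finset.sum_nonneg fun j _ => sq_nonneg _) (Finset.mem_univ i)
    have e3 := Finset.single_le_sum (f := fun y => ∑ i : Fin 8, ∑ j : Fin 8,
      (qq b φ i j s (mul b x (dil s y)) - qq b φ i j s x) ^ 2)
      (fun y _ => Finset.sum_nonneg fun i _ => Finset.sum_nonneg fun j _ => sq_nonneg _) hy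
    exact (e1.trans e2).trans e3
  have h2 : |qq b φ i j s (mul b x (dil s y)) - qq b φ i j s x| ≤ ε :=
    abs_le_of_sq_le_sq (by linarith) hε.le
  have h3 : (φ (mul b (mul b x (dil s y)) (st i s)) - φ (mul b x (dil s y)) -
      (φ (mul b x (st i s)) - φ x)) j =
      s * (qq b φ i j s (mul b x (dil s y)) - qq b φ i j s x) := by
    unfold qq
    simp only [Pi.sub_apply]
    field_simp
  rw [h3, Real.norm_eq_abs, abs_mul, abs_of_pos hs0, mul_comm]
  exact mul_le_mul_of_nonneg_right h2 hs0.le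

end Pool.Agent.W646.CT
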