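import Pool.Agent.W317.CT.Stm

set_option autoImplicit false

namespace Pool.Agent.W646.CT

open Pool.Agent.W317.CT Filter Topology

section wl

variable {H : Type} [Group H] {k : ℕ} {p : FreeGroup (Fin k) →* H}

theorem wl_word (hp : Function.Surjective p) (g : H) :
    ∃ w : FreeGroup (Fin k), w.norm = wl p g ∧ p w = g := by
  have h : {n | ∃ w : FreeGroup (Fin k), w.norm = n ∧ p w = g}.Nonempty := by
    obtain ⟨w, hw⟩ := hp g
    exact ⟨w.norm, w, rfl, hw⟩
  exact Nat.sInf_mem h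

theorem wl_le (w : FreeGroup (Fin k)) : wl p (p w) ≤ w.norm := Nat.sInf_le ⟨w, rfl, rfl⟩

theorem wl_one : wl p 1 = 0 := by
  have h := wl_le (p := p) 1
  rw [map_one, FreeGroup.norm_one] at h
  omega

theorem wl_mul (hp : Function.Surjective p) (g h : H) : wl p (g * h) ≤ wl p g + wl p h := by
  obtain ⟨w, hw, rfl⟩ := wl_word hp g
  obtain ⟨w', hw', rfl⟩ := wl_word hp h
  rw [← map_mul, ← hw, ← hw']
  exact (wl_le _).trans (FreeGroup.norm_mul_le _ _)

theorem wl_inv_le (hp : Function.Surjective p) (g : H) : wl p g⁻¹ ≤ wl p g := by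
  obtain ⟨w, hw, rfl⟩ := wl_word hp g
  rw [← map_inv, ← hw]
  exact (wl_le _).trans (le_of_eq FreeGroup.norm_inv_eq)

end wl

theorem finite_norm_le (k n : ℕ) : {w : FreeGroup (Fin k) | w.norm ≤ n}.Finite := by
  have h := List.finite_length_le (Fin k × Bool) n
  exact (h.preimage (FreeGroup.toWord_injective.injOn)).subset fun w hw => hw

section row

variable {H : Type} [Group H] {Q : Type} [Group Q]

/-- the product of the labels along a row -/
def prT (tau : H → Q) (r : ℕ → H) : ℕ → Q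
  | 0 => 1
  | i + 1 => prT tau r i * tau ((r i)⁻¹ * r (i + 1))

theorem prT_const (tau : H → Q) (h1 : tau 1 = 1) (c : H) (i : ℕ) :
    prT tau (fun _ => c) i = 1 := by
  induction i with
  | zero => rfl
  | succ i ih => rw [prT, ih, inv_mul_cancel, h1, one_mul]

theorem row_conj (tau : H → Q) (len : H → ℕ) (n : ℕ)
    (hlen : ∀ g h, len (g * h) ≤ len g + len h)
    (htau : ∀ g h, len g ≤ 2 * n → len h ≤ 2 * n → len (g * h) ≤ 2 * n →
      tau g * tau h = tau (g * h)) (r r' : ℕ → H)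
    (h1 : ∀ i, len ((r i)⁻¹ * r (i + 1)) ≤ n) (h2 : ∀ i, len ((r' i)⁻¹ * r' (i + 1)) ≤ n)
    (h3 : ∀ i, len ((r i)⁻¹ * r' i) ≤ n) (i : ℕ) :
    prT tau r i * tau ((r i)⁻¹ * r' i) = tau ((r 0)⁻¹ * r' 0) * prT tau r' i := by
  induction i with
  | zero => rw [prT, prT, one_mul, mul_one]
  | succ i ih =>
    have e1 : ((r i)⁻¹ * r (i + 1)) * ((r (i + 1))⁻¹ * r' (i + 1)) = (r i)⁻¹ * r' (i + 1) := by
      group
    have e2 : ((r i)⁻¹ * r' i) * ((r' i)⁻¹ * r' (i + 1)) = (r i)⁻¹ * r' (i + 1) := by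
      group
    have a1 := h1 i
    have a2 := h2 i
    have a3 := h3 i
    have a4 := h3 (i + 1)
    have a5 : len ((r i)⁻¹ * r' (i + 1)) ≤ 2 * n := by
      rw [← e1]
      exact (hlen _ _).trans (by omega)
    have b1 := htau ((r i)⁻¹ * r (i + 1)) ((r (i + 1))⁻¹ * r' (i + 1)) (by omega) (by omega)
      (by rw [e1]; exact a5)
    have b2 := htau ((r i)⁻¹ * r' i) ((r' i)⁻¹ * r' (i + 1)) (by omega) (by omega)
      (by rw [e2]; exact a5)
    rw [e1] at b1
    rw [e2] at b2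
    rw [prT, prT, mul_assoc, b1, ← b2, ← mul_assoc, ih, mul_assoc]

theorem row_one (tau : H → Q) (len : H → ℕ) (n : ℕ)
    (hlen : ∀ g h, len (g * h) ≤ len g + len h)
    (htau : ∀ g h, len g ≤ 2 * n → len h ≤ 2 * n → len (g * h) ≤ 2 * n →
      tau g * tau h = tau (g * h)) (r r' : ℕ → H)
    (h1 : ∀ i, len ((r i)⁻¹ * r (i + 1)) ≤ n) (h2 : ∀ i, len ((r' i)⁻¹ * r' (i + 1)) ≤ n)
    (h3 : ∀ i, len ((r i)⁻¹ * r' i) ≤ n) (L : ℕ) (hr : r L = r 0) (hr' : r' L = r' 0)
    (h : prT tau r' L = 1) : prT tau r L = 1 := by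
  have h4 := row_conj tau len n hlen htau r r' h1 h2 h3 L
  rw [h, mul_one, hr, hr'] at h4
  exact mul_eq_right.1 h4

end row

theorem fp : S_FP := by
  classical
  intro b H _ k p hp F K C hK hF hC
  have hC0 : 0 ≤ C := by
    obtain ⟨a, ha⟩ := hC 1
    exact (Nat.cast_nonneg _).trans ha
  choose ψ hψ using hC
  obtain ⟨A, hA1, hA⟩ : ∃ A : ℝ, 1 ≤ A ∧ K * (1 + 3 * C) ≤ A :=
    ⟨max 1 (K * (1 + 3 * C)), le_max_left _ _, le_max_right _ _⟩
  obtain ⟨n0, hn1, hn2, hn3⟩ : ∃ n0 : ℕ, 1 ≤ n0 ∧ K * A + C ≤ n0 ∧ C ≤ n0 := by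
    refine ⟨⌈K * A + C⌉₊ + 1, by omega, ?_, ?_⟩
    · have := Nat.le_ceil (K * A + C)
      push_cast
      linarith
    · have h1 := Nat.le_ceil (K * A + C)
      have h2 : 0 ≤ K * A := by positivity
      push_cast
      linarith
  -- words
  choose wd hwd1 hwd2 using wl_word hp
  have hwlF : ∀ g g', d b g g' ≤ A → wl p ((F g)⁻¹ * F g') ≤ n0 := by
    intro g g' h
    have h1 := (hF g g').2
    have h2 : K * d b g g' ≤ K * A := mul_le_mul_of_nonneg_left h hK.le
    have h3 : (wl p ((F g)⁻¹ * F g') : ℝ) ≤ n0 := by linarith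
    exact_mod_cast h3
  have hψd : ∀ h h' : H, wl p (h⁻¹ * h') ≤ 1 → d b (ψ h) (ψ h') ≤ A := by
    intro h h' hh
    have h1 := (hF (ψ h) (ψ h')).1
    have e1 : (F (ψ h))⁻¹ * F (ψ h') =
        ((F (ψ h))⁻¹ * h) * ((h⁻¹ * h') * ((F (ψ h'))⁻¹ * h')⁻¹) := by group
    have h2 : wl p ((F (ψ h))⁻¹ * F (ψ h')) ≤ wl p ((F (ψ h))⁻¹ * h) + (wl p (h⁻¹ * h') +
        wl p ((F (ψ h'))⁻¹ * h')) := by
      rw [e1]
      refine (wl_mul hp _ _).trans (Nat.add_le_add_left ((wl_mul hp _ _).trans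
        (Nat.add_le_add_left (wl_inv_le hp _) _)) _)
    have h3 : (wl p ((F (ψ h))⁻¹ * F (ψ h')) : ℝ) ≤ 1 + 2 * C := by
      have h4 : (wl p ((F (ψ h))⁻¹ * F (ψ h')) : ℝ) ≤ wl p ((F (ψ h))⁻¹ * h) +
        ((wl p (h⁻¹ * h') : ℝ) + wl p ((F (ψ h'))⁻¹ * h')) := by exact_mod_cast h2
      have h5 := hψ h
      have h6 := hψ h'
      have h7 : (wl p (h⁻¹ * h') : ℝ) ≤ 1 := by exact_mod_cast hh
      linarith
    have h4 : d b (ψ h) (ψ h') / K ≤ 1 + 3 * C := by linarith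
    rw [div_le_iff₀ hK] at h4
    linarith
  -- relators
  have hfin : {w : FreeGroup (Fin k) | w ∈ p.ker ∧ w.norm ≤ 6 * n0}.Finite :=
    (finite_norm_le k (6 * n0)).subset fun w hw => hw.2
  refine ⟨hfin.toFinset, ?_⟩
  rw [Set.Finite.coe_toFinset]
  set NN := Subgroup.normalClosure {w : FreeGroup (Fin k) | w ∈ p.ker ∧ w.norm ≤ 6 * n0} with hNN
  refine le_antisymm (Subgroup.normalClosure_le_normal fun w hw => hw.1) fun w hw => ?_
  let π : FreeGroup (Fin k) →* FreeGroup (Fin k) ⧸ NN := QuotientGroup.mk' NN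
  have hπ : ∀ u : FreeGroup (Fin k), u ∈ p.ker → u.norm ≤ 6 * n0 → π u = 1 := by
    intro u h1 h2
    exact (QuotientGroup.eq_one_iff u).2 (Subgroup.subset_normalClosure ⟨h1, h2⟩)
  let tau : H → FreeGroup (Fin k) ⧸ NN := fun g => π (wd g)
  have htau : ∀ g h, wl p g ≤ 2 * n0 → wl p h ≤ 2 * n0 → wl p (g * h) ≤ 2 * n0 →
      tau g * tau h = tau (g * h) := by
    intro g h h1 h2 h3
    show π (wd g) * π (wd h) = π (wd (g * h))
    rw [← map_mul, ← mul_inv_eq_one, ← map_inv, ← map_mul]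
    apply hπ
    · rw [MonoidHom.mem_ker, map_mul, map_mul, map_inv, hwd2, hwd2, hwd2, mul_inv_cancel]
    · refine (FreeGroup.norm_mul_le _ _).trans ?_
      rw [FreeGroup.norm_inv_eq]
      have h4 := FreeGroup.norm_mul_le (wd g) (wd h)
      rw [hwd1, hwd1] at h4
      rw [hwd1]
      omega
  have htau1 : tau 1 = 1 := by
    show π (wd 1) = 1
    apply hπ
    · rw [MonoidHom.mem_ker, hwd2]
    · rw [hwd1, wl_one]
      omega
  have hlet : ∀ u : FreeGroup (Fin k), u.norm ≤ 1 → π u = tau (p u) := by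
    intro u hu
    show π u = π (wd (p u))
    rw [← mul_inv_eq_one, ← map_inv, ← map_mul]
    apply hπ
    · rw [MonoidHom.mem_ker, map_mul, map_inv, hwd2, mul_inv_cancel]
    · refine (FreeGroup.norm_mul_le _ _).trans ?_
      rw [FreeGroup.norm_inv_eq, hwd1]
      have h1 := wl_le (p := p) u
      omega
  -- the letters of the word
  obtain ⟨L, Wd, hW0, hWL, hWs⟩ : ∃ (L : ℕ) (Wd : ℕ → FreeGroup (Fin k)), Wd 0 = 1 ∧
      (∀ i, L ≤ i → Wd i = w) ∧ ∀ i, ((Wd i)⁻¹ * Wd (i + 1)).norm ≤ 1 := by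
    refine ⟨w.toWord.length, fun i => FreeGroup.mk (w.toWord.take i), ?_, fun i hi => ?_, ?_⟩
    · simp only [List.take_zero]
      exact FreeGroup.one_eq_mk.symm
    · simp only [List.take_of_length_le hi, FreeGroup.mk_toWord]
    · intro i
      simp only
      by_cases hi : i < w.toWord.length
      · rw [List.take_succ_eq_append_getElem hi, ← FreeGroup.mul_mk, inv_mul_cancel_left]
        exact FreeGroup.norm_mk_le.trans (by simp)
      · rw [List.take_of_length_le (by omega), List.take_of_length_le (by omega), inv_mul_cancel,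
          FreeGroup.norm_one]
        omega
  have hh1 : ∀ i, wl p ((p (Wd i))⁻¹ * p (Wd (i + 1))) ≤ 1 := by
    intro i
    rw [← map_inv, ← map_mul]
    exact (wl_le _).trans (hWs i)
  have hrow : ∀ i, prT tau (fun i => p (Wd i)) i = π (Wd i) := by
    intro i
    induction i with
    | zero => rw [prT, hW0, map_one]
    | succ i ih =>
      rw [prT, ih]
      have e1 : (p (Wd i))⁻¹ * p (Wd (i + 1)) = p ((Wd i)⁻¹ * Wd (i + 1)) := by
        rw [map_mul, map_inv]
      show π (Wd i) * tau ((p (Wd i))⁻¹ * p (Wd (i + 1))) = π (Wd (i + 1))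
      rw [e1, ← hlet _ (hWs i), ← map_mul, mul_inv_cancel_left]
  have hL1 : p (Wd L) = 1 := by rw [hWL L le_rfl]; exact hw
  have h01 : p (Wd 0) = 1 := by rw [hW0, map_one]
  have hlen : ∀ g h, wl p (g * h) ≤ wl p g + wl p h := wl_mul hp
  -- the grid; beyond `L` the path is constant
  obtain ⟨a, ha⟩ : ∃ a : ℕ → E × W, a = fun i => ψ (p (Wd i)) := ⟨_, rfl⟩
  have had : ∀ i, d b (a i) (a (i + 1)) ≤ A := fun i => by rw [ha]; exact hψd _ _ (hh1 i)
  have haL : a L = a 0 := by rw [ha]; simp only [hL1, h01]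
  obtain ⟨S, hS⟩ : ∃ S : ℝ, ∀ i, ‖(a i).1‖ ≤ S ∧ ‖(a i).2‖ ≤ S := by
    refine ⟨∑ i ∈ Finset.range (L + 1), (‖(a i).1‖ + ‖(a i).2‖), fun i => ?_⟩
    have hle : ∀ i ≤ L, ‖(a i).1‖ + ‖(a i).2‖ ≤
        ∑ i ∈ Finset.range (L + 1), (‖(a i).1‖ + ‖(a i).2‖) := fun i hi =>
      Finset.single_le_sum (f := fun i => ‖(a i).1‖ + ‖(a i).2‖)
        (fun i _ => add_nonneg (norm_nonneg _) (norm_nonneg _)) (Finset.mem_range.2 (by omega))
    have h1 : ‖(a i).1‖ + ‖(a i).2‖ ≤
        ∑ i ∈ Finset.range (L + 1), (‖(a i).1‖ + ‖(a i).2‖) := by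
      by_cases hi : i ≤ L
      · exact hle i hi
      · have e1 : a i = a L := by
          rw [ha]
          simp only [hWL i (by omega), hWL L le_rfl]
        rw [e1]
        exact hle L le_rfl
    have h2 := norm_nonneg (a i).1
    have h3 := norm_nonneg (a i).2
    constructor <;> linarith
  obtain ⟨M, hM0, hM⟩ : ∃ M : ℕ, 0 < M ∧ 2 * S ≤ M := by
    refine ⟨⌈2 * S⌉₊ + 1, by omega, ?_⟩
    have := Nat.le_ceil (2 * S)
    push_cast
    linarith
  have hM' : (0 : ℝ) < M := by exact_mod_cast hM0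
  have hrd : ∀ m : ℕ, m ≤ M → ∀ i, wl p ((F (dil ((m : ℝ) / M) (a i)))⁻¹ *
      F (dil ((m : ℝ) / M) (a (i + 1)))) ≤ n0 := by
    intro m hm i
    apply hwlF
    rw [d_dil]
    have h1 : |(m : ℝ) / M| ≤ 1 := by
      rw [abs_of_nonneg (by positivity), div_le_one hM']
      exact_mod_cast hm
    have h2 := d_nonneg b (a i) (a (i + 1))
    have h3 := mul_le_mul_of_nonneg_right h1 h2
    have h4 := had i
    linarith
  have hnear : ∀ m : ℕ, m < M → ∀ i, wl p ((F (dil (((m + 1 : ℕ) : ℝ) / M) (a i)))⁻¹ *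
      F (dil ((m : ℝ) / M) (a i))) ≤ n0 := by
    intro m hm i
    apply hwlF
    refine le_trans ?_ hA1
    rw [dil_near]
    have hm' : (m : ℝ) + 1 ≤ M := by exact_mod_cast hm
    obtain ⟨hS1, hS2⟩ := hS i
    have hS0 : 0 ≤ S := (norm_nonneg _).trans hS1
    refine max_le ?_ ?_
    · have e1 : |(m : ℝ) / M - ((m + 1 : ℕ) : ℝ) / M| = 1 / M := by
        have : (m : ℝ) / M - ((m + 1 : ℕ) : ℝ) / M = -(1 / M) := by push_cast; ring
        rw [this, abs_neg, abs_of_pos (by positivity)]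
      rw [e1, div_mul_eq_mul_div, one_mul, div_le_one hM']
      linarith
    · have e1 : |((m : ℝ) / M) ^ 2 - (((m + 1 : ℕ) : ℝ) / M) ^ 2| ≤ 2 / M := by
        have : ((m : ℝ) / M) ^ 2 - (((m + 1 : ℕ) : ℝ) / M) ^ 2 = -((2 * m + 1) / M ^ 2) := by
          push_cast
          field_simp
          ring
        rw [this, abs_neg, abs_of_nonneg (by positivity), div_le_div_iff₀ (by positivity) hM']
        have h5 : (2 * (m : ℝ) + 1) * M ≤ 2 * M * M :=
          mul_le_mul_of_nonneg_right (by linarith) hM'.le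
        calc (2 * (m : ℝ) + 1) * M ≤ 2 * M * M := h5
          _ = 2 * (M : ℝ) ^ 2 := by ring
      rw [Real.sqrt_le_left zero_le_one, one_pow]
      have h5 : |((m : ℝ) / M) ^ 2 - (((m + 1 : ℕ) : ℝ) / M) ^ 2| * ‖(a i).2‖ ≤ 2 / M * S :=
        mul_le_mul e1 hS2 (norm_nonneg _) (by positivity)
      refine h5.trans ?_
      rw [div_mul_eq_mul_div, div_le_one hM']
      exact hM
  have hgrid : ∀ m : ℕ, m ≤ M → prT tau (fun i => F (dil ((m : ℝ) / M) (a i))) L = 1 := by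
    intro m
    induction m with
    | zero =>
      intro _
      have e1 : (fun i => F (dil (((0 : ℕ) : ℝ) / M) (a i))) = fun _ => F 0 := by
        funext i
        rw [Nat.cast_zero, zero_div, dil_zero_left]
      rw [e1]
      exact prT_const tau htau1 _ _
    | succ m ih =>
      intro hm
      exact row_one tau (wl p) n0 hlen htau _ _ (hrd (m + 1) hm) (hrd m (by omega))
        (hnear m (by omega)) L (by simp only [haL]) (by simp only [haL]) (ih (by omega))
  have hlast : prT tau (fun i => F (a i)) L = 1 := by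
    have h1 := hgrid M le_rfl
    rw [div_self hM'.ne'] at h1
    simpa only [dil_one] using h1
  have hfinal : prT tau (fun i => p (Wd i)) L = 1 := by
    refine row_one tau (wl p) n0 hlen htau _ _ (fun i => (hh1 i).trans hn1) (fun i => ?_)
      (fun i => ?_) L (by simp only [hL1, h01]) (by simp only [haL]) hlast
    · exact hwlF _ _ (had i)
    · have e1 : (p (Wd i))⁻¹ * F (a i) = ((F (a i))⁻¹ * p (Wd i))⁻¹ := by group
      rw [e1]
      refine (wl_inv_le hp _).trans ?_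
      have h1 := hψ (p (Wd i))
      rw [ha]
      have h2 : (wl p ((F (ψ (p (Wd i))))⁻¹ * p (Wd i)) : ℝ) ≤ n0 := h1.trans hn3
      exact_mod_cast h2
  rw [hrow, hWL L le_rfl] at hfinal
  exact (QuotientGroup.eq_one_iff w).1 hfinal

end Pool.Agent.W646.CT
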