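import Pool.Agent.W317.CT.Stm

set_option autoImplicit false

namespace Pool.Agent.W646.CT

open Pool.Agent.W317.CT Filter Topology

theorem norm_fst_le_d (b : Form) (g h : E × W) : ‖h.1 - g.1‖ ≤ d b g h := by
  rw [d_eq]
  exact le_max_left _ _

/-- natural steps -/
theorem nat_step (b : Form) {F : E × W → E × W} {a : Fin 8 → E}
    (hstep : ∀ (y : E × W) (i : Fin 8), (F (mul b y (st i 1))).1 = (F y).1 + a i)
    (y : E × W) (i : Fin 8) (k : ℕ) :
    (F (mul b y (st i (k : ℝ)))).1 = (F y).1 + (k : ℝ) • a i := by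
  induction k with
  | zero => simp
  | succ k ih =>
    push_cast
    rw [← st_mul b, ← mul_assoc', hstep, ih, add_smul, one_smul, add_assoc]

/-- the rescaled maps -/
noncomputable def Fz (F : E × W → E × W) (p : ℝ) (g : E × W) : E × W := dil p⁻¹ (F (dil p g))

theorem Fz_zero {F : E × W → E × W} (hF0 : F 0 = 0) (p : ℝ) : Fz F p 0 = 0 := by
  unfold Fz
  rw [dil_zero', hF0, dil_zero']

theorem Fz_fst (F : E × W → E × W) (p : ℝ) (g : E × W) :
    (Fz F p g).1 = p⁻¹ • (F (dil p g)).1 := rfl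

theorem Fz_BiLip (b b' : Form) {F : E × W → E × W} {K : ℝ} (hBL : BiLip (d b) (d b') F K)
    {p : ℝ} (hp : 0 < p) : BiLip (d b) (d b') (Fz F p) K := by
  intro g h
  have h1 := hBL (dil p g) (dil p h)
  rw [d_dil, abs_of_pos hp] at h1
  unfold Fz
  rw [d_dil, abs_of_pos (inv_pos.2 hp)]
  constructor
  · have h2 := mul_le_mul_of_nonneg_left h1.1 (inv_pos.2 hp).le
    refine le_trans (le_of_eq ?_) h2
    field_simp
  · have h2 := mul_le_mul_of_nonneg_left h1.2 (inv_pos.2 hp).le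
    refine le_trans h2 (le_of_eq ?_)
    field_simp

theorem Fz_step (b : Form) {F : E × W → E × W} {a : Fin 8 → E}
    (hstep : ∀ (y : E × W) (i : Fin 8), (F (mul b y (st i 1))).1 = (F y).1 + a i)
    (y : E × W) (i : Fin 8) {p r : ℝ} (hp : 0 < p) (k : ℕ) (hk : p * r = k) :
    (Fz F p (mul b y (st i r))).1 = (Fz F p y).1 + r • a i := by
  rw [Fz_fst, Fz_fst, dil_mul, dil_st, hk, nat_step b hstep, smul_add, ← hk, smul_smul,
    ← mul_assoc, inv_mul_cancel₀ hp.ne', one_mul]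

theorem lim_BiLip (b b' : Form) {K : ℝ} (U : Ultrafilter ℕ) {Fn : ℕ → E × W → E × W}
    (hBLn : ∀ n, BiLip (d b) (d b') (Fn n) K) {G : E × W → E × W}
    (hG : ∀ g, Tendsto (fun n => Fn n g) (U : Filter ℕ) (𝓝 (G g))) :
    BiLip (d b) (d b') G K := by
  intro g h
  have hpr : Tendsto (fun n => (Fn n g, Fn n h)) (U : Filter ℕ) (𝓝 (G g, G h)) :=
    (hG g).prodMk_nhds (hG h)
  have hdc : Tendsto (fun p : (E × W) × (E × W) => d b' p.1 p.2) (𝓝 (G g, G h))
      (𝓝 (d b' (G g) (G h))) := (continuous_d b').tendsto (G g, G h)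
  have hGd : Tendsto (fun n => d b' (Fn n g) (Fn n h)) (U : Filter ℕ)
      (𝓝 (d b' (G g) (G h))) := by
    have := Tendsto.comp hdc hpr
    exact this
  exact ⟨ge_of_tendsto hGd (Eventually.of_forall fun n => (hBLn n g h).1),
      le_of_tendsto hGd (Eventually.of_forall fun n => (hBLn n g h).2)⟩

/-- from dyadic steps to all steps -/
theorem all_step (b b' : Form) {K : ℝ} (hK : 0 < K) {G : E × W → E × W} {a : Fin 8 → E}
    (hGBL : BiLip (d b) (d b') G K)
    (hdy : ∀ (y : E × W) (i : Fin 8) (k l : ℕ),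
      (G (mul b y (st i ((k : ℝ) / 2 ^ l)))).1 = (G y).1 + ((k : ℝ) / 2 ^ l) • a i)
    (y : E × W) (i : Fin 8) (t : ℝ) : (G (mul b y (st i t))).1 = (G y).1 + t • a i := by
  have hcont : ∀ (y : E × W) (i : Fin 8), Continuous fun t : ℝ => (G (mul b y (st i t))).1 := by
    intro y i
    refine (LipschitzWith.of_dist_le_mul (K := Real.toNNReal K) fun s t => ?_).continuous
    rw [dist_eq_norm, Real.coe_toNNReal K hK.le, Real.dist_eq]
    have h1 := (norm_fst_le_d b' (G (mul b y (st i t))) (G (mul b y (st i s)))).trans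
      (hGBL (mul b y (st i t)) (mul b y (st i s))).2
    rw [d_st] at h1
    exact h1
  have hnn : ∀ (y : E × W) (i : Fin 8) (t : ℝ), 0 ≤ t →
      (G (mul b y (st i t))).1 = (G y).1 + t • a i := by
    intro y i t ht
    have h1 : Tendsto (fun l : ℕ => ((⌊t * (2 : ℝ) ^ l⌋₊ : ℕ) : ℝ) / 2 ^ l) atTop (𝓝 t) :=
      (tendsto_nat_floor_mul_div_atTop ht).comp (tendsto_pow_atTop_atTop_of_one_lt one_lt_two)
    have h2 := ((hcont y i).tendsto t).comp h1
    have h3 : Tendsto (fun l : ℕ => (G y).1 + (((⌊t * (2 : ℝ) ^ l⌋₊ : ℕ) : ℝ) / 2 ^ l) • a i)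
        atTop (𝓝 ((G y).1 + t • a i)) :=
      tendsto_const_nhds.add (h1.smul_const _)
    refine tendsto_nhds_unique (h2.congr fun l => ?_) h3
    exact hdy y i _ l
  rcases le_total 0 t with ht | ht
  · exact hnn y i t ht
  · have h1 := hnn (mul b y (st i t)) i (-t) (by linarith)
    rw [mul_assoc', st_mul b, add_neg_cancel, st_zero, mul_zero'] at h1
    rw [h1, neg_smul]
    abel

theorem zoom (hL : S_LIM) : S_ZOOM := by
  intro b b' F K a hK hF0 hBL hstep
  have hPpos : ∀ n : ℕ, (0 : ℝ) < 2 ^ n := fun n => by positivity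
  obtain ⟨Fn, hFn⟩ : ∃ Fn : ℕ → E × W → E × W, Fn = fun n => Fz F (2 ^ n) := ⟨_, rfl⟩
  have hBLn : ∀ n, BiLip (d b) (d b') (Fn n) K := fun n => by
    rw [hFn]; exact Fz_BiLip b b' hBL (hPpos n)
  have hFn0 : ∀ n, Fn n 0 = 0 := fun n => by rw [hFn]; exact Fz_zero hF0 _
  obtain ⟨U, hUle⟩ : ∃ U : Ultrafilter ℕ, (U : Filter ℕ) ≤ atTop :=
    ⟨Ultrafilter.of atTop, Ultrafilter.of_le _⟩
  obtain ⟨G, hG⟩ := hL ℕ U Fn (fun g => ⟨K * N g, Eventually.of_forall fun n => by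
    have h1 := (hBLn n 0 g).2
    rw [hFn0, d_zero_left, d_zero_left] at h1
    exact h1⟩)
  have hG0 : G 0 = 0 := by
    have h1 := hG 0
    simp only [hFn0] at h1
    exact tendsto_nhds_unique h1 tendsto_const_nhds
  have hGBL := lim_BiLip b b' U hBLn hG
  have hdy : ∀ (y : E × W) (i : Fin 8) (k l : ℕ),
      (G (mul b y (st i ((k : ℝ) / 2 ^ l)))).1 = (G y).1 + ((k : ℝ) / 2 ^ l) • a i := by
    intro y i k l
    have h1 : ∀ n, l ≤ n → (Fn n (mul b y (st i ((k : ℝ) / 2 ^ l)))).1 =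
        (Fn n y).1 + ((k : ℝ) / 2 ^ l) • a i := by
      intro n hn
      rw [hFn]
      refine Fz_step b hstep y i (hPpos n) (k * 2 ^ (n - l)) ?_
      have e2 : (2 : ℝ) ^ n = 2 ^ l * 2 ^ (n - l) := by
        rw [← pow_add]
        congr 1
        omega
      rw [e2]
      push_cast
      field_simp
    have h2 : Tendsto (fun n => (Fn n (mul b y (st i ((k : ℝ) / 2 ^ l)))).1) (U : Filter ℕ)
        (𝓝 (G (mul b y (st i ((k : ℝ) / 2 ^ l)))).1) :=
      (continuous_fst.tendsto _).comp (hG _)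
    have h3 : Tendsto (fun n => (Fn n y).1 + ((k : ℝ) / 2 ^ l) • a i) (U : Filter ℕ)
        (𝓝 ((G y).1 + ((k : ℝ) / 2 ^ l) • a i)) :=
      ((continuous_fst.tendsto _).comp (hG y)).add tendsto_const_nhds
    refine tendsto_nhds_unique (h2.congr' ?_) h3
    exact hUle (eventually_atTop.2 ⟨l, h1⟩)
  exact ⟨G, hG0, hGBL, all_step b b' hK hGBL hdy⟩

end Pool.Agent.W646.CT
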